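import Pool.Agent.H89.Hart.Zak

/-!
# An elementary criterion for complete intersections

`I` smooth of codimension `r`, `g 1, ..., g r ∈ I` homogeneous.

* `exists_degenerate`: the locus in `X` where the differentials of the `g i` are dependent is empty
  or contains a subvariety of codimension at most one in `X`;
* `indep_everywhere`: if the differentials are independent along `X ∩ P(V₁)` with
  `dim V₁ ≥ r + 2`, they are independent on all of `X`;
* `zeros_mem`: if they are independent on all of `X` and `2 r < n + 1`, then `X` is the zero set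
  of the `g i`.
-/

open MvPolynomial

set_option linter.unusedSectionVars false
set_option linter.unusedSimpArgs false

namespace H18.Sparse

open H89.Hart

variable {ι : Type*} [Fintype ι] [DecidableEq ι]

theorem dd_homog {f : MvPolynomial ι ℂ} {d : ℕ} (hf : f.IsHomogeneous d) (v : ι → ℂ) :
    (dd v f).IsHomogeneous (d - 1) := by
  refine IsHomogeneous.sum _ _ _ fun i _ => ?_
  have := (isHomogeneous_C ι (v i)).mul (hf.pderiv (i := i))
  simpa using this

theorem det_homog {r : ℕ} (g : Fin r → MvPolynomial ι ℂ)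
    (hgh : ∀ i, ∃ d, (g i).IsHomogeneous d) (l : Fin r → ι → ℂ) :
    ∃ d, ((mat g l).det).IsHomogeneous d := by
  choose d hd using hgh
  refine ⟨∑ i, (d i - 1), ?_⟩
  rw [← Matrix.det_transpose, Matrix.det_apply]
  refine IsHomogeneous.sum _ _ _ fun σ _ => ?_
  have h1 : (∏ i, (mat g l).transpose (σ i) i).IsHomogeneous (∑ i, (d i - 1)) := by
    refine IsHomogeneous.prod _ _ _ fun i _ => ?_
    simpa [mat, Matrix.transpose_apply] using dd_homog (hd i) (l (σ i))
  have h2 : (Equiv.Perm.sign σ • ∏ i, (mat g l).transpose (σ i) i) =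
      C (((Equiv.Perm.sign σ : ℤˣ) : ℤ) : ℂ) * ∏ i, (mat g l).transpose (σ i) i := by
    rw [Units.smul_def, zsmul_eq_mul]
    congr 1
  rw [h2]
  have := (isHomogeneous_C ι ((((Equiv.Perm.sign σ : ℤˣ) : ℤ) : ℂ))).mul h1
  simpa using this

/-- If `g i ∈ I` have dependent differentials at a point, they do so along a divisor. -/
theorem exists_degenerate {I : Ideal (MvPolynomial ι ℂ)} {r : ℕ} (hI : Smooth I r)
    (g : Fin r → MvPolynomial ι ℂ) (hg : ∀ i, g i ∈ I) (hgh : ∀ i, ∃ d, (g i).IsHomogeneous d)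
    {p : ι → ℂ} (hp : p ∈ cone I) (hp0 : p ≠ 0)
    (hdep : ¬ LinearIndependent ℂ (fun i => dif (g i) p)) :
    ∃ Q : Ideal (MvPolynomial ι ℂ), Q.IsPrime ∧ (∀ f ∈ Q, ∀ d, homogeneousComponent d f ∈ Q) ∧
      I ≤ Q ∧ (∀ x ∈ cone Q, ¬ LinearIndependent ℂ (fun i => dif (g i) x)) ∧
      (Fintype.card ι : WithBot ℕ∞) ≤ ringKrullDim (MvPolynomial ι ℂ ⧸ Q) + (r + 1 : ℕ) := by
  obtain ⟨h, l, hhI, hhom, hli, hmat⟩ := exists_frame hI hp hp0
  have hdet : (matAt h l p).det ≠ 0 := by rw [hmat]; simp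
  have hδ0 : eval p (mat g l).det = 0 := by
    rw [eval_det_mat]
    by_contra hne
    exact hdep (li_of_det g l p hne)
  obtain ⟨k, hk⟩ : ∃ k, p k ≠ 0 := by
    by_contra hc
    push Not at hc
    exact hp0 (funext hc)
  obtain ⟨Q, hQ, hQh, hQg, hpQ, hdim⟩ := exists_component
    (Sum.elim h (fun _ : Unit => (mat g l).det) : Fin r ⊕ Unit → MvPolynomial ι ℂ)
    (by rintro (i | j); exacts [hhom i, det_homog g hgh l]) p
    (by rintro (i | j); exacts [hp _ (hhI i), hδ0])
  have hIQ : I ≤ Q := le_of_local hI h hhI hp hp0 hli hQ (fun i => hQg (Sum.inl i)) hpQ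
  refine ⟨Q, hQ, hQh, hIQ, ?_, ?_⟩
  · intro x hx hlix
    obtain ⟨w, hw⟩ := exists_dual _ hlix
    have key : (X k : MvPolynomial ι ℂ) * ((mat g w).det * (mat h l).det) ∈ Q := by
      apply mem_of_cone hQ
      intro z hz
      rw [map_mul, map_mul, eval_det_mat, eval_det_mat, eval_X]
      by_contra hne
      have h0 : z k ≠ 0 := left_ne_zero_of_mul hne
      have h1 : (matAt g w z).det ≠ 0 := left_ne_zero_of_mul (right_ne_zero_of_mul hne)
      have h2 : (matAt h l z).det ≠ 0 := right_ne_zero_of_mul (right_ne_zero_of_mul hne)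
      have hzI : z ∈ cone I := cone_anti hIQ hz
      have h3 : (matAt g l z).det = 0 := by
        rw [← eval_det_mat]
        exact hz _ (hQg (Sum.inr ()))
      obtain ⟨c, hc0, hc⟩ := Matrix.exists_vecMul_eq_zero_iff.2 h3
      have hφN : (∑ i, c i • dif (g i) z) ∈ N I z :=
        Submodule.sum_mem _ fun i _ => Submodule.smul_mem _ _ (mem_N.2 ⟨g i, hg i, rfl⟩)
      have hφl : ∀ j, (∑ i, c i • dif (g i) z) ⬝ᵥ l j = 0 := by
        intro j
        have h4 := congrFun hc j
        simp only [Matrix.vecMul, dotProduct, matAt, Matrix.of_apply, Pi.zero_apply] at h4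
        rw [sum_dotProduct]
        refine Eq.trans (Finset.sum_congr rfl fun i _ => ?_) h4
        rw [smul_dotProduct, smul_eq_mul]
        rfl
      have h5 := frame_id hI h hhI l hp hp0 hdet hzI hφN
      simp only [hφl, zero_mul, Finset.sum_const_zero, zero_smul] at h5
      have h6 : (∑ i, c i • dif (g i) z) = 0 := (smul_eq_zero.1 h5).resolve_left h2
      exact hc0 (funext (Fintype.linearIndependent_iff.1 (li_of_det g w z h1) c h6))
    rcases hQ.mem_or_mem key with h1 | h1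
    · exact hk (by simpa using hpQ _ h1)
    rcases hQ.mem_or_mem h1 with h2 | h2
    · have h3 := hx _ h2
      have h4 : matAt g w x = 1 := by
        ext i j
        rw [matAt, Matrix.of_apply, hw, Matrix.one_apply]
      rw [eval_det_mat, h4, Matrix.det_one] at h3
      exact one_ne_zero h3
    · have h3 := hpQ _ h2
      rw [eval_det_mat] at h3
      exact hdet h3
  · simpa using hdim

/-- Independence along a linear section of dimension at least one is independence everywhere. -/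
theorem indep_everywhere {I : Ideal (MvPolynomial ι ℂ)} {r : ℕ} (hI : Smooth I r)
    (g : Fin r → MvPolynomial ι ℂ) (hg : ∀ i, g i ∈ I) (hgh : ∀ i, ∃ d, (g i).IsHomogeneous d)
    {β : Type*} [Fintype β] (l : β → ι → ℂ) (hβ : Fintype.card β + (r + 2) ≤ Fintype.card ι)
    (hV : ∀ x ∈ cone I, x ≠ 0 → (∀ b, l b ⬝ᵥ x = 0) →
      LinearIndependent ℂ (fun i => dif (g i) x)) :
    ∀ x ∈ cone I, x ≠ 0 → LinearIndependent ℂ (fun i => dif (g i) x) := by
  intro p hp hp0
  by_contra hdep
  obtain ⟨Q, hQ, hQh, hIQ, hQd, hdim⟩ := exists_degenerate hI g hg hgh hp hp0 hdep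
  have hlt : (Fintype.card β : WithBot ℕ∞) < ringKrullDim (MvPolynomial ι ℂ ⧸ Q) := by
    by_contra hcon
    push Not at hcon
    have h1 : (Fintype.card ι : WithBot ℕ∞) ≤ (Fintype.card β : WithBot ℕ∞) + (r + 1 : ℕ) :=
      hdim.trans (add_le_add_left hcon _)
    have h2 : Fintype.card ι ≤ Fintype.card β + (r + 1) := by exact_mod_cast h1
    omega
  obtain ⟨x, hx, hx0, hxl⟩ := exists_ne_zero Q hQ hQh (fun b => lf (l b))
    (fun b => by rw [eval_lf]; simp) hlt
  exact hQd x hx (hV x (cone_anti hIQ hx) hx0 fun b => by simpa [eval_lf] using hxl b)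

/-- Global independence implies that `X` is the zero set of the `g i`. -/
theorem zeros_mem {I : Ideal (MvPolynomial ι ℂ)} {r : ℕ} (hI : Smooth I r)
    (g : Fin r → MvPolynomial ι ℂ) (hg : ∀ i, g i ∈ I) (hgh : ∀ i, ∃ d, (g i).IsHomogeneous d)
    (hli : ∀ x ∈ cone I, x ≠ 0 → LinearIndependent ℂ (fun i => dif (g i) x))
    (hcard : 2 * r < Fintype.card ι) {x₀ : ι → ℂ} (hx₀ : x₀ ∈ cone I) (hx₀0 : x₀ ≠ 0)
    {q : ι → ℂ} (hq : ∀ i, eval q (g i) = 0) : q ∈ cone I := by
  by_contra hqI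
  -- the component of the product through `(x₀, q)`
  obtain ⟨P, hP, hPh, hPg, hqP, hdim⟩ := exists_component
    (Sum.elim (fun i => rename Sum.inl (g i)) (fun i => rename Sum.inr (g i)) :
      Fin r ⊕ Fin r → MvPolynomial (ι ⊕ ι) ℂ)
    (by
      rintro (i | i) <;> obtain ⟨d, hd⟩ := hgh i <;> exact ⟨d, hd.rename_isHomogeneous⟩)
    (Sum.elim x₀ q)
    (by
      rintro (i | i)
      · simpa [eval_rename] using hx₀ _ (hg i)
      · simpa [eval_rename] using hq i)
  let P₁ : Ideal (MvPolynomial ι ℂ) :=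
    P.comap (rename Sum.inl : MvPolynomial ι ℂ →ₐ[ℂ] MvPolynomial (ι ⊕ ι) ℂ)
  let P₂ : Ideal (MvPolynomial ι ℂ) :=
    P.comap (rename Sum.inr : MvPolynomial ι ℂ →ₐ[ℂ] MvPolynomial (ι ⊕ ι) ℂ)
  have hP₁ : P₁.IsPrime := Ideal.comap_isPrime _ _
  have hP₂ : P₂.IsPrime := Ideal.comap_isPrime _ _
  have hc₁ : ∀ z ∈ cone P, (fun i => z (Sum.inl i)) ∈ cone P₁ := by
    intro z hz f hf
    have := hz _ (Ideal.mem_comap.1 hf)
    rwa [eval_rename] at this
  have hc₂ : ∀ z ∈ cone P, (fun i => z (Sum.inr i)) ∈ cone P₂ := by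
    intro z hz f hf
    have := hz _ (Ideal.mem_comap.1 hf)
    rwa [eval_rename] at this
  have hx₀P : x₀ ∈ cone P₁ := by
    have h := hc₁ (Sum.elim x₀ q) hqP
    simpa only [Sum.elim_inl] using h
  have hqP₂ : q ∈ cone P₂ := by
    have h := hc₂ (Sum.elim x₀ q) hqP
    simpa only [Sum.elim_inr] using h
  have hgP₁ : ∀ i, g i ∈ P₁ := fun i => hPg (Sum.inl i)
  have hgP₂ : ∀ i, g i ∈ P₂ := fun i => hPg (Sum.inr i)
  have hIP₁ : I ≤ P₁ := le_of_local hI g hg hx₀ hx₀0 (hli _ hx₀ hx₀0) hP₁ hgP₁ hx₀P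
  have hlt : (Fintype.card ι : WithBot ℕ∞) < ringKrullDim (MvPolynomial (ι ⊕ ι) ℂ ⧸ P) := by
    by_contra hcon
    push Not at hcon
    have h1 := hdim.trans (add_le_add_left hcon _)
    rw [Fintype.card_sum, Fintype.card_sum, Fintype.card_fin] at h1
    have h2 : Fintype.card ι + Fintype.card ι ≤ Fintype.card ι + (r + r) := by
      exact_mod_cast h1
    omega
  obtain ⟨z, hz, hz0, hzl⟩ := exists_ne_zero P hP hPh
    (fun i : ι => (X (Sum.inl i) - X (Sum.inr i) : MvPolynomial (ι ⊕ ι) ℂ)) (by simp) hlt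
  have hzz : ∀ i, z (Sum.inl i) = z (Sum.inr i) := by
    intro i
    have := hzl i
    simpa [sub_eq_zero] using this
  set y : ι → ℂ := fun i => z (Sum.inl i) with hy
  have hy2 : y = fun i => z (Sum.inr i) := funext hzz
  have hy0 : y ≠ 0 := by
    intro h0
    apply hz0
    funext s
    rcases s with i | i
    · exact congrFun h0 i
    · rw [← hzz]
      exact congrFun h0 i
  have hyI : y ∈ cone I := cone_anti hIP₁ (hc₁ z hz)
  have hyP₂ : y ∈ cone P₂ := by rw [hy2]; exact hc₂ z hz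
  have hIP₂ : I ≤ P₂ := le_of_local hI g hg hyI hy0 (hli _ hyI hy0) hP₂ hgP₂ hyP₂
  exact hqI (cone_anti hIP₂ hqP₂)

end H18.Sparse
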