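import Pool.Agent.H18.Sparse.Crit

/-!
# Forms with two far apart groups of variables

`Adj f i k`: `i = k` or some monomial of some `f j` contains both `x_i` and `x_k`.
-/

open MvPolynomial

set_option linter.unusedSectionVars false
set_option linter.unusedSimpArgs false

namespace H18.Sparse

open H89.Hart

variable {ι : Type*} [Fintype ι] [DecidableEq ι] {α : Type*} [Fintype α]

/-- two coordinates are adjacent -/
def Adj (f : α → MvPolynomial ι ℂ) (i k : ι) : Prop :=
  i = k ∨ ∃ j, ∃ m ∈ (f j).support, m i ≠ 0 ∧ m k ≠ 0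

theorem mem_support_of_pderiv {h : MvPolynomial ι ℂ} {k : ι} {m : ι →₀ ℕ}
    (hm : m ∈ (pderiv k h).support) : m + Finsupp.single k 1 ∈ h.support := by
  classical
  rw [mem_support_iff] at hm ⊢
  intro h0
  apply hm
  have : ∀ p : MvPolynomial ι ℂ, coeff m (pderiv k p) =
      coeff (m + Finsupp.single k 1) p * (m k + 1) := by
    intro p
    induction p using MvPolynomial.induction_on' with
    | monomial u a =>
      rw [pderiv_monomial, coeff_monomial, coeff_monomial]
      by_cases hu : u = m + Finsupp.single k 1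
      · subst hu
        simp
      · rw [if_neg hu, zero_mul]
        by_cases hk : u k = 0
        · simp [hk]
        · rw [if_neg]
          intro h1
          apply hu
          rw [← h1]
          ext i
          by_cases hi : i = k
          · subst hi
            simp only [Finsupp.coe_add, Finsupp.coe_tsub, Pi.add_apply, Pi.sub_apply,
              Finsupp.single_eq_same]
            omega
          · simp [Finsupp.single_apply, Ne.symm hi]
    | add p q hp hq => rw [map_add, coeff_add, coeff_add, hp, hq, add_mul]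
  rw [this, h0, zero_mul]

/-- additivity of a polynomial without mixed monomials -/
theorem eval_add_of_sep {T₁ T₂ : Finset ι} (hT : Disjoint T₁ T₂) {h : MvPolynomial ι ℂ}
    (hsep : ∀ m ∈ h.support, m ≠ 0 ∧ ∀ i ∈ T₁, ∀ k ∈ T₂, m i ≠ 0 → m k = 0)
    {x y : ι → ℂ} (hx : ∀ i ∉ T₁, x i = 0) (hy : ∀ i ∉ T₂, y i = 0) :
    eval (x + y) h = eval x h + eval y h := by
  rw [eval_eq', eval_eq', eval_eq', ← Finset.sum_add_distrib]
  refine Finset.sum_congr rfl fun m hm => ?_
  obtain ⟨hm0, hmT⟩ := hsep m hm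
  have hz : ∀ (z : ι → ℂ) (i : ι), m i ≠ 0 → z i = 0 → ∏ i, z i ^ m i = 0 := by
    intro z i hi hzi
    apply Finset.prod_eq_zero (Finset.mem_univ i)
    rw [hzi, zero_pow hi]
  obtain ⟨i₀, hi₀⟩ : ∃ i, m i ≠ 0 := by
    by_contra hc
    push Not at hc
    exact hm0 (Finsupp.ext hc)
  rw [← mul_add]
  congr 1
  by_cases hA : ∀ i, m i ≠ 0 → i ∈ T₁
  · have h1 : ∏ i, (x + y) i ^ m i = ∏ i, x i ^ m i := by
      refine Finset.prod_congr rfl fun i _ => ?_
      by_cases hi : m i = 0
      · rw [hi, pow_zero, pow_zero]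
      · rw [Pi.add_apply, hy i (Finset.disjoint_left.1 hT (hA i hi)), add_zero]
    rw [h1, hz y i₀ hi₀ (hy _ (Finset.disjoint_left.1 hT (hA _ hi₀))), add_zero]
  by_cases hB : ∀ i, m i ≠ 0 → i ∈ T₂
  · have h1 : ∏ i, (x + y) i ^ m i = ∏ i, y i ^ m i := by
      refine Finset.prod_congr rfl fun i _ => ?_
      by_cases hi : m i = 0
      · rw [hi, pow_zero, pow_zero]
      · rw [Pi.add_apply, hx i (Finset.disjoint_right.1 hT (hB i hi)), zero_add]
    rw [h1, hz x i₀ hi₀ (hx _ (Finset.disjoint_right.1 hT (hB _ hi₀))), zero_add]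
  push Not at hA hB
  obtain ⟨i₁, hi₁, h1⟩ := hA
  obtain ⟨i₂, hi₂, h2⟩ := hB
  rw [hz x i₁ hi₁ (hx _ h1), hz y i₂ hi₂ (hy _ h2), add_zero]
  by_cases h3 : i₁ ∈ T₂
  · have h4 : i₂ ∉ T₁ := fun h => hi₁ (hmT i₂ h i₁ h3 hi₂)
    exact hz _ i₂ hi₂ (by rw [Pi.add_apply, hx _ h4, hy _ h2, add_zero])
  · exact hz _ i₁ hi₁ (by rw [Pi.add_apply, hx _ h1, hy _ h3, add_zero])

/-- a partial derivative that does not vanish at a point supported on `T` -/
theorem adj_of_dif_ne {f : α → MvPolynomial ι ℂ} {d : α → ℕ} (hd : ∀ j, 2 ≤ d j)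
    (hf : ∀ j, (f j).IsHomogeneous (d j)) {T : Finset ι} {x : ι → ℂ} (hx : ∀ i ∉ T, x i = 0)
    {j : α} {k : ι} (h : dif (f j) x k ≠ 0) : ∃ i ∈ T, Adj f i k := by
  unfold dif at h
  rw [eval_eq'] at h
  obtain ⟨m, hm, hm0⟩ := Finset.exists_ne_zero_of_sum_ne_zero h
  have h1 := mem_support_of_pderiv hm
  have h2 : ∏ i, x i ^ m i ≠ 0 := right_ne_zero_of_mul hm0
  have h3 : ∀ i, m i ≠ 0 → i ∈ T := by
    intro i hi
    by_contra hiT
    apply h2
    apply Finset.prod_eq_zero (Finset.mem_univ i)
    rw [hx i hiT, zero_pow hi]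
  obtain ⟨i, hi⟩ : ∃ i, m i ≠ 0 := by
    by_contra hc
    push Not at hc
    have h4 : m = 0 := Finsupp.ext hc
    rw [h4, zero_add] at h1
    have h5 := (hf j) (mem_support_iff.1 h1)
    rw [Finsupp.weight_single] at h5
    have := hd j
    simp at h5
    omega
  refine ⟨i, h3 i hi, Or.inr ⟨j, _, h1, ?_, ?_⟩⟩
  · simp [hi]
  · simp

/-- `c ↦ ∑ c j • dif (f j) x` -/
noncomputable def M (f : α → MvPolynomial ι ℂ) (x : ι → ℂ) : (α → ℂ) →ₗ[ℂ] (ι → ℂ) :=
  Fintype.linearCombination ℂ (fun j => dif (f j) x)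

theorem M_apply (f : α → MvPolynomial ι ℂ) (x : ι → ℂ) (c : α → ℂ) :
    M f x c = ∑ j, c j • dif (f j) x := by
  simp [M, Fintype.linearCombination_apply]

theorem finrank_ker {f : α → MvPolynomial ι ℂ} {x : ι → ℂ} {r : ℕ}
    (h : Module.finrank ℂ (Submodule.span ℂ (Set.range fun j => dif (f j) x)) = r) :
    Module.finrank ℂ (LinearMap.ker (M f x)) + r = Fintype.card α := by
  have h1 := LinearMap.finrank_range_add_finrank_ker (M f x)
  rw [M, Fintype.range_linearCombination, h, Module.finrank_fintype_fun_eq_card] at h1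
  rw [M]
  omega

/-- The main theorem on forms with two far apart groups of variables. -/
theorem main {I : Ideal (MvPolynomial ι ℂ)} {r : ℕ} (hI : Smooth I r)
    (hdim : ringKrullDim (MvPolynomial ι ℂ ⧸ I) + r = Fintype.card ι)
    (f : α → MvPolynomial ι ℂ) (d : α → ℕ) (hd : ∀ j, 2 ≤ d j)
    (hf : ∀ j, (f j).IsHomogeneous (d j)) (hfI : ∀ j, f j ∈ I)
    (hcut : ∀ x, x ≠ 0 → (∀ j, eval x (f j) = 0) → x ∈ cone I ∧
      Module.finrank ℂ (Submodule.span ℂ (Set.range fun j => dif (f j) x)) = r)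
    (T₁ T₂ : Finset ι) (h₁ : r + 2 ≤ T₁.card)
    (h₂ : r + 1 ≤ T₂.card ∨ ∃ y ∈ cone I, y ≠ 0 ∧ ∀ i ∉ T₂, y i = 0)
    (hT : ∀ i ∈ T₁, ∀ k ∈ T₂, ∀ l, ¬ (Adj f i l ∧ Adj f k l)) :
    ∃ J : Fin r → α, Function.Injective J ∧
      (∀ x, (∀ i, eval x (f (J i)) = 0) → x ∈ cone I) ∧
      ∀ x ∈ cone I, x ≠ 0 → LinearIndependent ℂ (fun i => dif (f (J i)) x) := by
  classical
  have hTd : Disjoint T₁ T₂ := by
    rw [Finset.disjoint_left]
    intro i h1 h2
    exact hT i h1 i h2 i ⟨Or.inl rfl, Or.inl rfl⟩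
  -- a point of `X` supported on `T₂`
  obtain ⟨y, hyI, hy0, hyT⟩ : ∃ y ∈ cone I, y ≠ 0 ∧ ∀ i ∉ T₂, y i = 0 := by
    rcases h₂ with h | h
    · have hc : Fintype.card {i // i ∉ T₂} = Fintype.card ι - T₂.card := by
        rw [Fintype.card_subtype_compl]
        simp
      have hlt : (Fintype.card {i // i ∉ T₂} : WithBot ℕ∞) <
          ringKrullDim (MvPolynomial ι ℂ ⧸ I) := by
        by_contra hcon
        push Not at hcon
        have h1 : (Fintype.card ι : WithBot ℕ∞) ≤
            (Fintype.card {i // i ∉ T₂} : WithBot ℕ∞) + (r : ℕ) := by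
          rw [← hdim]
          exact add_le_add_left hcon _
        have h2 : Fintype.card ι ≤ Fintype.card {i // i ∉ T₂} + r := by exact_mod_cast h1
        have h3 : T₂.card ≤ Fintype.card ι := Finset.card_le_univ T₂
        omega
      obtain ⟨y, hy, hy0, hyl⟩ := exists_ne_zero I hI.prime hI.homog
        (fun b : {i // i ∉ T₂} => (X b.1 : MvPolynomial ι ℂ)) (by simp) hlt
      exact ⟨y, hy, hy0, fun i hi => by simpa using hyl ⟨i, hi⟩⟩
    · exact h
  -- the rank at points of the cone
  have hrank : ∀ x ∈ cone I, x ≠ 0 →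
      Module.finrank ℂ (Submodule.span ℂ (Set.range fun j => dif (f j) x)) = r :=
    fun x hx hx0 => (hcut x hx0 fun j => hx _ (hfI j)).2
  -- the relations are constant on `X ∩ P(ℂ^T₁)`
  have hker : ∀ x ∈ cone I, x ≠ 0 → (∀ i ∉ T₁, x i = 0) →
      LinearMap.ker (M f x) = LinearMap.ker (M f y) := by
    intro x hxI hx0 hxT
    have hxy0 : x + y ≠ 0 := by
      intro h
      apply hx0
      funext i
      by_cases hi : i ∈ T₁
      · have := congrFun h i
        rwa [Pi.add_apply, hyT i (Finset.disjoint_left.1 hTd hi), add_zero] at this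
      · exact hxT i hi
    have hadd : ∀ j, eval (x + y) (f j) = eval x (f j) + eval y (f j) := by
      intro j
      refine eval_add_of_sep hTd ?_ hxT hyT
      intro m hm
      constructor
      · rintro rfl
        have h5 := (hf j) (mem_support_iff.1 hm)
        rw [map_zero] at h5
        have := hd j
        omega
      · intro i hi k hk hmi
        by_contra hmk
        exact hT i hi k hk k ⟨Or.inr ⟨j, m, hm, hmi, hmk⟩, Or.inl rfl⟩
    have hdadd : ∀ j, dif (f j) (x + y) = dif (f j) x + dif (f j) y := by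
      intro j
      funext k₀
      simp only [dif, Pi.add_apply]
      refine eval_add_of_sep hTd ?_ hxT hyT
      intro m hm
      have hm' := mem_support_of_pderiv hm
      constructor
      · rintro rfl
        rw [zero_add] at hm'
        have h5 := (hf j) (mem_support_iff.1 hm')
        rw [Finsupp.weight_single] at h5
        have := hd j
        simp at h5
        omega
      · intro i hi k hk hmi
        by_contra hmk
        exact hT i hi k hk k ⟨Or.inr ⟨j, _, hm', by simp [hmi], by simp [hmk]⟩, Or.inl rfl⟩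
    have hxyI : x + y ∈ cone I := by
      refine (hcut _ hxy0 fun j => ?_).1
      rw [hadd, hxI _ (hfI j), hyI _ (hfI j), add_zero]
    have hle : ∀ c, M f (x + y) c = 0 → M f x c = 0 ∧ M f y c = 0 := by
      intro c hc
      have h1 : M f (x + y) c = M f x c + M f y c := by
        rw [M_apply, M_apply, M_apply, ← Finset.sum_add_distrib]
        refine Finset.sum_congr rfl fun j _ => ?_
        rw [hdadd, smul_add]
      rw [h1] at hc
      have h2 : ∀ l, M f x c l = 0 ∨ M f y c l = 0 := by
        intro l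
        by_contra hcon
        push Not at hcon
        obtain ⟨ha, hb⟩ := hcon
        rw [M_apply, Finset.sum_apply] at ha hb
        obtain ⟨j₁, -, hj₁⟩ := Finset.exists_ne_zero_of_sum_ne_zero ha
        obtain ⟨j₂, -, hj₂⟩ := Finset.exists_ne_zero_of_sum_ne_zero hb
        rw [Pi.smul_apply] at hj₁ hj₂
        obtain ⟨i, hi, hil⟩ := adj_of_dif_ne hd hf hxT (right_ne_zero_of_smul hj₁)
        obtain ⟨k, hk, hkl⟩ := adj_of_dif_ne hd hf hyT (right_ne_zero_of_smul hj₂)
        exact hT i hi k hk l ⟨hil, hkl⟩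
      have h3 : ∀ l, M f x c l = 0 ∧ M f y c l = 0 := by
        intro l
        have h4 := congrFun hc l
        rw [Pi.add_apply, Pi.zero_apply] at h4
        rcases h2 l with h | h
        · rw [h, zero_add] at h4
          exact ⟨h, h4⟩
        · rw [h, add_zero] at h4
          exact ⟨h4, h⟩
      exact ⟨funext fun l => (h3 l).1, funext fun l => (h3 l).2⟩
    have k1 := finrank_ker (hrank _ hxyI hxy0)
    have k2 := finrank_ker (hrank _ hxI hx0)
    have k3 := finrank_ker (hrank _ hyI hy0)
    have e1 : LinearMap.ker (M f (x + y)) = LinearMap.ker (M f x) := by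
      apply Submodule.eq_of_le_of_finrank_eq
      · intro c hc
        exact (hle c hc).1
      · omega
    have e2 : LinearMap.ker (M f (x + y)) = LinearMap.ker (M f y) := by
      apply Submodule.eq_of_le_of_finrank_eq
      · intro c hc
        exact (hle c hc).2
      · omega
    rw [← e1, e2]
  -- choice of the subfamily
  obtain ⟨J, hJ⟩ : ∃ J : Fin r → α, LinearIndependent ℂ (fun i => dif (f (J i)) y) := by
    have h := Submodule.exists_fun_fin_finrank_span_eq ℂ (Set.range fun j => dif (f j) y)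
    rw [hrank y hyI hy0] at h
    obtain ⟨b, hb1, -, hb3⟩ := h
    choose J hJ using hb1
    refine ⟨J, ?_⟩
    have : (fun i => dif (f (J i)) y) = b := funext hJ
    rw [this]
    exact hb3
  have hJinj : Function.Injective J := by
    intro a b hab
    exact hJ.injective (by simp only [hab])
  have hlix : ∀ x ∈ cone I, x ≠ 0 → (∀ i ∉ T₁, x i = 0) →
      LinearIndependent ℂ (fun i => dif (f (J i)) x) := by
    intro x hxI hx0 hxT
    rw [Fintype.linearIndependent_iff] at hJ ⊢
    intro c hc
    apply hJ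
    have key : ∀ z, ∑ i, c i • dif (f (J i)) z =
        M f z (∑ i, c i • Pi.single (J i) (1 : ℂ)) := by
      intro z
      rw [map_sum]
      refine Finset.sum_congr rfl fun i _ => ?_
      rw [map_smul, M, Fintype.linearCombination_apply_single, one_smul]
    have h1 : (∑ i, c i • Pi.single (J i) (1 : ℂ)) ∈ LinearMap.ker (M f x) := by
      rw [LinearMap.mem_ker, ← key]
      exact hc
    rw [hker x hxI hx0 hxT, LinearMap.mem_ker, ← key] at h1
    exact h1
  -- globalize
  have hhom : ∀ i, ∃ e, (f (J i)).IsHomogeneous e := fun i => ⟨_, hf (J i)⟩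
  have hall : ∀ x ∈ cone I, x ≠ 0 → LinearIndependent ℂ (fun i => dif (f (J i)) x) := by
    refine indep_everywhere hI (fun i => f (J i)) (fun i => hfI _) hhom
      (fun b : {i // i ∉ T₁} => (Pi.single b.1 1 : ι → ℂ)) ?_ ?_
    · have hc : Fintype.card {i // i ∉ T₁} = Fintype.card ι - T₁.card := by
        rw [Fintype.card_subtype_compl]
        simp
      have h3 : T₁.card ≤ Fintype.card ι := Finset.card_le_univ T₁
      omega
    · intro x hxI hx0 hxl
      refine hlix x hxI hx0 fun i hi => ?_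
      simpa using hxl ⟨i, hi⟩
  -- the number of coordinates
  have hcard : 2 * r < Fintype.card ι := by
    -- the differentials at `y` are supported off `T₁`
    have hsub : Submodule.span ℂ (Set.range fun j => dif (f j) y) ≤
        LinearMap.ker (LinearMap.funLeft ℂ ℂ (fun b : {i // i ∈ T₁} => b.1)) := by
      rw [Submodule.span_le]
      rintro _ ⟨j, rfl⟩
      rw [SetLike.mem_coe, LinearMap.mem_ker]
      funext b
      change dif (f j) y b.1 = 0
      by_contra hne
      obtain ⟨k, hk, hkb⟩ := adj_of_dif_ne hd hf hyT hne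
      exact hT b.1 b.2 k hk b.1 ⟨Or.inl rfl, hkb⟩
    have h1 := Submodule.finrank_mono hsub
    rw [hrank y hyI hy0] at h1
    have h2 := LinearMap.finrank_range_add_finrank_ker
      (LinearMap.funLeft ℂ ℂ (fun b : {i // i ∈ T₁} => b.1) : (ι → ℂ) →ₗ[ℂ] _)
    have h3 : LinearMap.range
        (LinearMap.funLeft ℂ ℂ (fun b : {i // i ∈ T₁} => b.1) : (ι → ℂ) →ₗ[ℂ] _) = ⊤ :=
      LinearMap.range_eq_top.2 (LinearMap.funLeft_surjective_of_injective ℂ ℂ _
        Subtype.val_injective)
    rw [h3, finrank_top, Module.finrank_fintype_fun_eq_card, Module.finrank_fintype_fun_eq_card]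
      at h2
    have h4 : Fintype.card {i // i ∈ T₁} = T₁.card := by simp
    omega
  refine ⟨J, hJinj, fun x hx => ?_, hall⟩
  exact zeros_mem hI (fun i => f (J i)) (fun i => hfI _) hhom hall hcard hyI hy0 hx

end H18.Sparse
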