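import Pool.Agent.H18.Sparse.Sep

/-!
# Varieties of small codimension defined by forms with two far apart groups of variables

Let `X ⊂ P^n` be nonsingular, irreducible, closed, of codimension `r`, cut out scheme-theoretically
by forms `f j` (any finite number, any degrees `≥ 2`).  Call two variables adjacent if they are
equal or occur together in a monomial of some `f j`.  If there are `r + 2` variables `T₁` and
`r + 1` variables `T₂` such that no variable is adjacent to a member of `T₁` and to a member of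
`T₂`, then `X` is the transversal intersection of `r` of the hypersurfaces `f j = 0`.
-/

open MvPolynomial

namespace Pool.Agent.Results.MP_9a3fdb_ag.SparseForms

/-- The affine cone over the projective zero set of `I`: the common zeros of all `f ∈ I`. -/
def Cone {n : ℕ} (I : Ideal (MvPolynomial (Fin (n + 1)) ℂ)) : Set (Fin (n + 1) → ℂ) :=
  {x | ∀ f ∈ I, eval x f = 0}

/-- The differential of `f` at `x`, as the vector of its partial derivatives. -/
noncomputable def grad {n : ℕ} (f : MvPolynomial (Fin (n + 1)) ℂ) (x : Fin (n + 1) → ℂ) :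
    Fin (n + 1) → ℂ := fun i => eval x (pderiv i f)

/-- `I` is the homogeneous ideal of a nonsingular irreducible closed subvariety of `P^n` of
codimension `r`: a homogeneous prime ideal with `dim ℂ[x₀,…,xₙ]/I = n + 1 - r` whose elements have,
at every nonzero point of the cone, differentials spanning an `r`-dimensional space. -/
structure IsNonsingularVariety (n r : ℕ) (I : Ideal (MvPolynomial (Fin (n + 1)) ℂ)) : Prop where
  prime : I.IsPrime
  homogeneous : ∀ f ∈ I, ∀ d, homogeneousComponent d f ∈ I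
  dim : ringKrullDim (MvPolynomial (Fin (n + 1)) ℂ ⧸ I) + r = n + 1
  nonsingular : ∀ x ∈ Cone I, x ≠ 0 →
    Module.finrank ℂ (Submodule.span ℂ {v | ∃ f ∈ I, grad f x = v}) = r

/-- The variables `x_i` and `x_k` are adjacent: they are equal, or some monomial occurring in some
`f j` contains both. -/
def Adjacent {n m : ℕ} (f : Fin m → MvPolynomial (Fin (n + 1)) ℂ) (i k : Fin (n + 1)) : Prop :=
  i = k ∨ ∃ j, ∃ μ ∈ (f j).support, μ i ≠ 0 ∧ μ k ≠ 0

theorem result (n r m : ℕ) (I : Ideal (MvPolynomial (Fin (n + 1)) ℂ))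
    (hX : IsNonsingularVariety n r I)
    -- forms `f j ∈ I` of degrees `d j ≥ 2` cutting out `X` scheme-theoretically
    (f : Fin m → MvPolynomial (Fin (n + 1)) ℂ) (d : Fin m → ℕ) (hd : ∀ j, 2 ≤ d j)
    (hf : ∀ j, (f j).IsHomogeneous (d j)) (hfI : ∀ j, f j ∈ I)
    (hcut : ∀ x, x ≠ 0 → (∀ j, eval x (f j) = 0) → x ∈ Cone I ∧
      Module.finrank ℂ (Submodule.span ℂ (Set.range fun j => grad (f j) x)) = r)
    -- two far apart groups of variables
    (T₁ T₂ : Finset (Fin (n + 1))) (h₁ : r + 2 ≤ T₁.card)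
    (h₂ : r + 1 ≤ T₂.card ∨ ∃ y ∈ Cone I, y ≠ 0 ∧ ∀ i ∉ T₂, y i = 0)
    (hT : ∀ i ∈ T₁, ∀ k ∈ T₂, ∀ l, ¬ (Adjacent f i l ∧ Adjacent f k l)) :
    ∃ J : Fin r → Fin m, Function.Injective J ∧
      Cone I = {x | ∀ i, eval x (f (J i)) = 0} ∧
      ∀ x ∈ Cone I, x ≠ 0 → LinearIndependent ℂ (fun i => grad (f (J i)) x) := by
  have hN : ∀ x, Submodule.span ℂ {v | ∃ f ∈ I, grad f x = v} = H89.Hart.N I x := by
    intro x
    apply le_antisymm
    · rw [Submodule.span_le]
      rintro v ⟨f, hf, rfl⟩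
      exact H89.Hart.mem_N.2 ⟨f, hf, rfl⟩
    · intro v hv
      obtain ⟨f, hf, rfl⟩ := H89.Hart.mem_N.1 hv
      exact Submodule.subset_span ⟨f, hf, rfl⟩
  have hS : H89.Hart.Smooth I r :=
    { prime := hX.prime
      homog := hX.homogeneous
      rank := fun x hx hx0 => by rw [← hN]; exact hX.nonsingular x hx hx0 }
  have hdim : ringKrullDim (MvPolynomial (Fin (n + 1)) ℂ ⧸ I) + r =
      Fintype.card (Fin (n + 1)) := by
    rw [hX.dim, Fintype.card_fin]
    push_cast
    rfl
  obtain ⟨J, hJ, hJ1, hJ2⟩ := H18.Sparse.main hS hdim f d hd hf hfI hcut T₁ T₂ h₁ h₂ hT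
  refine ⟨J, hJ, ?_, hJ2⟩
  ext x
  exact ⟨fun hx i => hx _ (hfI (J i)), fun hx => hJ1 x hx⟩

/-- Bounded interaction: if every variable is adjacent to at most `D` variables (itself included)
and `n ≥ (r + 2) D² + r`, the two groups of variables exist. -/
theorem exists_far {n m : ℕ} (r D : ℕ) (f : Fin m → MvPolynomial (Fin (n + 1)) ℂ)
    (hD : ∀ i, {k | Adjacent f i k}.ncard ≤ D) (hn : (r + 2) * D ^ 2 + r ≤ n) :
    ∃ T₁ T₂ : Finset (Fin (n + 1)), r + 2 ≤ T₁.card ∧ r + 1 ≤ T₂.card ∧
      ∀ i ∈ T₁, ∀ k ∈ T₂, ∀ l, ¬ (Adjacent f i l ∧ Adjacent f k l) := by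
  classical
  have hD1 : 1 ≤ D := by
    refine le_trans ?_ (hD 0)
    exact (Set.ncard_pos (Set.toFinite _)).2 ⟨0, Or.inl rfl⟩
  have hsymm : ∀ i k, Adjacent f i k → Adjacent f k i := by
    rintro i k (h | ⟨j, μ, hμ, h1, h2⟩)
    · exact Or.inl h.symm
    · exact Or.inr ⟨j, μ, hμ, h2, h1⟩
  let A : Fin (n + 1) → Finset (Fin (n + 1)) := fun i => Finset.univ.filter fun k => Adjacent f i k
  have hA : ∀ i, (A i).card ≤ D := by
    intro i
    rw [← Set.ncard_coe_finset]
    simpa [A] using hD i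
  have hle : r + 2 ≤ (Finset.univ : Finset (Fin (n + 1))).card := by
    rw [Finset.card_univ, Fintype.card_fin]
    nlinarith [Nat.one_le_pow 2 D hD1]
  obtain ⟨T₁, -, hT₁⟩ := Finset.exists_subset_card_eq hle
  let B : Finset (Fin (n + 1)) := T₁.biUnion fun i => (A i).biUnion A
  have hB : B.card ≤ (r + 2) * D ^ 2 := by
    refine Finset.card_biUnion_le.trans ?_
    refine (Finset.sum_le_card_nsmul _ _ (D ^ 2) fun i _ => ?_).trans ?_
    · refine Finset.card_biUnion_le.trans ?_
      refine (Finset.sum_le_card_nsmul _ _ D fun k _ => hA k).trans ?_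
      rw [smul_eq_mul, pow_two]
      exact Nat.mul_le_mul_right _ (hA i)
    · rw [hT₁, smul_eq_mul]
  refine ⟨T₁, Bᶜ, hT₁.ge, ?_, ?_⟩
  · rw [Finset.card_compl, Fintype.card_fin]
    omega
  · rintro i hi k hk l ⟨h1, h2⟩
    rw [Finset.mem_compl] at hk
    apply hk
    simp only [B, A, Finset.mem_biUnion, Finset.mem_filter, Finset.mem_univ, true_and]
    exact ⟨i, hi, l, h1, hsymm _ _ h2⟩

end Pool.Agent.Results.MP_9a3fdb_ag.SparseForms
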